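import Mathlib

set_option autoImplicit false
open Finset

namespace Pool.Agent.Q265.CR

variable {V : Type} [Fintype V] [DecidableEq V]

/-- the private neighbour lemma -/
theorem private_nbr (G : SimpleGraph V) [DecidableRel G.Adj] (A B : Finset V) (k : ℕ)
    (hind : ∀ p ∈ A, ∀ p' ∈ A, ¬ G.Adj p p') (hdisj : Disjoint A B)
    (hA : ∀ p ∈ A, (B.filter (fun q => ¬ G.Adj p q)).card ≤ k)
    (hB : ∀ q ∈ B, (A.filter (fun p => ¬ G.Adj q p)).card ≤ k)
    (hAk : 3 * k + 1 < A.card) (hBk : 3 * k + 1 < B.card) (h4 : ¬ G.Colorable 3)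
    (hcrit : ∀ u v, G.Adj u v → (G.deleteEdges {s(u, v)}).Colorable 3)
    {u v : V} (hu : u ∈ A) (hv : v ∈ B) (huv : G.Adj u v) :
    ∃ w, w ∉ A ∧ w ∉ B ∧ G.Adj w u ∧ ∀ p ∈ A, G.Adj p v → G.Adj w p → p = u := by
  classical
  obtain ⟨C⟩ := hcrit u v huv
  set c : V → Fin 3 := fun x => C x with hc
  have hne : ∀ p q, G.Adj p q → s(p, q) ≠ s(u, v) → c p ≠ c q := by
    intro p q hpq hs
    apply C.valid
    rw [SimpleGraph.deleteEdges_adj]
    exact ⟨hpq, by simpa using hs⟩
  -- the two ends have the same colour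
  have hx : c u = c v := by
    by_contra hcon
    apply h4
    refine ⟨SimpleGraph.Coloring.mk c ?_⟩
    intro p q hpq
    by_cases hs : s(p, q) = s(u, v)
    · rw [Sym2.eq_iff] at hs
      rcases hs with ⟨rfl, rfl⟩ | ⟨rfl, rfl⟩
      · exact hcon
      · exact fun h => hcon h.symm
    · exact hne p q hpq hs
  have hAB : ∀ p ∈ A, ∀ q ∈ B, p ≠ q := by
    intro p hp q hq h
    subst h
    exact (disjoint_left.1 hdisj) hp hq
  -- edges between A and B not equal to uv
  have hsne : ∀ p ∈ A, ∀ q ∈ B, (p ≠ u ∨ q ≠ v) → s(p, q) ≠ s(u, v) := by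
    intro p hp q hq hor hs
    rw [Sym2.eq_iff] at hs
    rcases hs with ⟨h1, h2⟩ | ⟨h1, h2⟩
    · rcases hor with h | h
      · exact h h1
      · exact h h2
    · exact hAB p hp v hv h1
  set A' : Finset V := A.filter (fun p => G.Adj v p ∧ p ≠ u) with hA'
  set B' : Finset V := B.filter (fun q => G.Adj u q ∧ q ≠ v) with hB'
  have hA'1 : ∀ p ∈ A', p ∈ A ∧ G.Adj v p ∧ p ≠ u := fun p hp => by
    rw [hA', mem_filter] at hp; exact hp
  have hB'1 : ∀ q ∈ B', q ∈ B ∧ G.Adj u q ∧ q ≠ v := fun q hq => by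
    rw [hB', mem_filter] at hq; exact hq
  have cA' : ∀ p ∈ A', c p ≠ c u := by
    intro p hp
    obtain ⟨h1, h2, h3⟩ := hA'1 p hp
    rw [hx]
    exact hne p v h2.symm (hsne p h1 v hv (Or.inl h3))
  have cB' : ∀ q ∈ B', c q ≠ c u := by
    intro q hq
    obtain ⟨h1, h2, h3⟩ := hB'1 q hq
    exact (hne u q h2 (hsne u hu q h1 (Or.inr h3))).symm
  -- common neighbours
  have commB : ∀ p ∈ A, ∀ p' ∈ A, ∃ q ∈ B', G.Adj p q ∧ G.Adj p' q := by
    intro p hp p' hp'
    by_contra hcon
    push Not at hcon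
    have hsub : B ⊆ (B.filter (fun q => ¬ G.Adj p q)) ∪ (B.filter (fun q => ¬ G.Adj p' q)) ∪
        (B.filter (fun q => ¬ G.Adj u q)) ∪ {v} := by
      intro q hq
      simp only [mem_union, mem_filter, mem_singleton]
      by_cases h1 : G.Adj p q
      · by_cases h2 : G.Adj u q
        · by_cases h3 : q = v
          · right; exact h3
          · left; left; right
            refine ⟨hq, hcon q ?_ h1⟩
            rw [hB', mem_filter]
            exact ⟨hq, h2, h3⟩
        · left; right; exact ⟨hq, h2⟩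
      · left; left; left; exact ⟨hq, h1⟩
    have h1 := card_le_card hsub
    have h2 := card_union_le ((B.filter (fun q => ¬ G.Adj p q)) ∪ (B.filter (fun q => ¬ G.Adj p' q)) ∪
        (B.filter (fun q => ¬ G.Adj u q))) {v}
    have h3 := card_union_le ((B.filter (fun q => ¬ G.Adj p q)) ∪ (B.filter (fun q => ¬ G.Adj p' q)))
        (B.filter (fun q => ¬ G.Adj u q))
    have h5 := card_union_le (B.filter (fun q => ¬ G.Adj p q)) (B.filter (fun q => ¬ G.Adj p' q))
    have h6 := hA p hp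
    have h7 := hA p' hp'
    have h8 := hA u hu
    rw [card_singleton] at h2
    omega
  have commA : ∀ q ∈ B, ∀ q' ∈ B, ∃ p ∈ A', G.Adj q p ∧ G.Adj q' p := by
    intro p hp p' hp'
    by_contra hcon
    push Not at hcon
    have hsub : A ⊆ (A.filter (fun q => ¬ G.Adj p q)) ∪ (A.filter (fun q => ¬ G.Adj p' q)) ∪
        (A.filter (fun q => ¬ G.Adj v q)) ∪ {u} := by
      intro q hq
      simp only [mem_union, mem_filter, mem_singleton]
      by_cases h1 : G.Adj p q
      · by_cases h2 : G.Adj v q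
        · by_cases h3 : q = u
          · right; exact h3
          · left; left; right
            refine ⟨hq, hcon q ?_ h1⟩
            rw [hA', mem_filter]
            exact ⟨hq, h2, h3⟩
        · left; right; exact ⟨hq, h2⟩
      · left; left; left; exact ⟨hq, h1⟩
    have h1 := card_le_card hsub
    have h2 := card_union_le ((A.filter (fun q => ¬ G.Adj p q)) ∪ (A.filter (fun q => ¬ G.Adj p' q)) ∪
        (A.filter (fun q => ¬ G.Adj v q))) {u}
    have h3 := card_union_le ((A.filter (fun q => ¬ G.Adj p q)) ∪ (A.filter (fun q => ¬ G.Adj p' q)))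
        (A.filter (fun q => ¬ G.Adj v q))
    have h5 := card_union_le (A.filter (fun q => ¬ G.Adj p q)) (A.filter (fun q => ¬ G.Adj p' q))
    have h6 := hB p hp
    have h7 := hB p' hp'
    have h8 := hB v hv
    rw [card_singleton] at h2
    omega
  -- a reference vertex
  obtain ⟨p0, hp0, -⟩ := commA v hv v hv
  obtain ⟨hp0A, hp0v, hp0u⟩ := hA'1 p0 hp0
  have fin3 : ∀ a b x y : Fin 3, a ≠ x → b ≠ x → y ≠ x → a ≠ b → y ≠ b → a = y := by decide
  have cA'y : ∀ p ∈ A', c p = c p0 := by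
    intro p hp
    obtain ⟨hpA, hpv, hpu⟩ := hA'1 p hp
    obtain ⟨q, hq, hpq, hp0q⟩ := commB p hpA p0 hp0A
    obtain ⟨hqB, hqu, hqv⟩ := hB'1 q hq
    exact fin3 (c p) (c q) (c u) (c p0) (cA' p hp) (cB' q hq) (cA' p0 hp0)
      (hne p q hpq (hsne p hpA q hqB (Or.inl hpu))) (hne p0 q hp0q (hsne p0 hp0A q hqB (Or.inl hp0u)))
  have cBy : ∀ q ∈ B, q ≠ v → c q ≠ c p0 := by
    intro q hq hqv
    obtain ⟨p, hp, hqp, -⟩ := commA q hq q hq
    obtain ⟨hpA, hpv, hpu⟩ := hA'1 p hp
    rw [← cA'y p hp]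
    exact (hne p q hqp.symm (hsne p hpA q hq (Or.inl hpu))).symm
  -- recolouring u must fail
  have hw : ∃ w, G.Adj u w ∧ c w = c p0 := by
    by_contra hcon
    push Not at hcon
    apply h4
    refine ⟨SimpleGraph.Coloring.mk (Function.update c u (c p0)) ?_⟩
    intro p q hpq
    by_cases hpu : p = u
    · subst hpu
      have hqp : q ≠ p := hpq.ne'
      rw [Function.update_self, Function.update_of_ne hqp]
      exact (hcon q hpq).symm
    · by_cases hqu : q = u
      · subst hqu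
        rw [Function.update_self, Function.update_of_ne hpu]
        exact hcon p hpq.symm
      · rw [Function.update_of_ne hpu, Function.update_of_ne hqu]
        apply hne p q hpq
        intro hs
        rw [Sym2.eq_iff] at hs
        rcases hs with ⟨h1, _⟩ | ⟨_, h1⟩
        · exact hpu h1
        · exact hqu h1
  obtain ⟨w, huw, hcw⟩ := hw
  have hwA : w ∉ A := fun h => hind u hu w h huw
  have hwv : w ≠ v := by
    rintro rfl
    rw [← hx] at hcw
    exact cA' p0 hp0 hcw.symm
  have hwB : w ∉ B := fun h => cBy w h hwv hcw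
  refine ⟨w, hwA, hwB, huw.symm, ?_⟩
  intro p hp hpv hwp
  by_contra hpu
  have hpA' : p ∈ A' := by
    rw [hA', mem_filter]
    exact ⟨hp, hpv.symm, hpu⟩
  apply hne w p hwp
  · intro hs
    rw [Sym2.eq_iff] at hs
    rcases hs with ⟨_, h1⟩ | ⟨h1, _⟩
    · exact hAB p hp v hv h1
    · exact hwv h1
  · rw [hcw, cA'y p hpA']

/-- in the near-complete bipartite situation there are many exceptional vertices -/
theorem core (G : SimpleGraph V) [DecidableRel G.Adj] (A B : Finset V) (k : ℕ)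
    (hind : ∀ p ∈ A, ∀ p' ∈ A, ¬ G.Adj p p') (hdisj : Disjoint A B)
    (hA : ∀ p ∈ A, (B.filter (fun q => ¬ G.Adj p q)).card ≤ k)
    (hB : ∀ q ∈ B, (A.filter (fun p => ¬ G.Adj q p)).card ≤ k)
    (hAk : 3 * k + 1 < A.card) (hBk : 3 * k + 1 < B.card) (h4 : ¬ G.Colorable 3)
    (hcrit : ∀ u v, G.Adj u v → (G.deleteEdges {s(u, v)}).Colorable 3) :
    A.card ≤ k + (univ \ (A ∪ B)).card := by
  classical
  have hBne : B.Nonempty := by
    rw [← card_pos]; omega
  obtain ⟨v, hv⟩ := hBne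
  have hex : ∀ u ∈ A.filter (fun p => G.Adj v p), ∃ w, w ∉ A ∧ w ∉ B ∧ G.Adj w u ∧
      ∀ p ∈ A, G.Adj p v → G.Adj w p → p = u := by
    intro u hu
    rw [mem_filter] at hu
    exact private_nbr G A B k hind hdisj hA hB hAk hBk h4 hcrit hu.1 hv hu.2.symm
  choose! f hf using hex
  have hle : (A.filter (fun p => G.Adj v p)).card ≤ (univ \ (A ∪ B)).card := by
    refine card_le_card_of_injOn f ?_ ?_
    · intro u hu
      obtain ⟨h1, h2, _, _⟩ := hf u hu
      simp [h1, h2]
    · intro u hu u' hu' h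
      obtain ⟨_, _, h3, h4'⟩ := hf u hu
      obtain ⟨_, _, h3', h4''⟩ := hf u' hu'
      have hu1 := (mem_filter.1 (mem_coe.1 hu))
      rw [h] at h3
      exact h4'' u hu1.1 hu1.2.symm h3
  have hsplit := card_filter_add_card_filter_not (s := A) (fun p => G.Adj v p)
  have := hB v hv
  omega

end Pool.Agent.Q265.CR
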